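import Pool.Agent.Y425.BF6.Col2

set_option autoImplicit false

/-!
Two perfect matchings whose removal leaves a bipartite graph, in bridgeless cubic graphs of cutwidth
at most six.

A finite graph, loops and parallel edges allowed, has the vertex set `V` and the edge set `E`; the
ends of the edge `e` are `s e` and `t e`. The cutwidth is at most six if the vertices can be placed
on a line such that at most six edges pass over each gap.
-/

open Finset

namespace Pool.Agent.Results.MP_9d84f2_co.CutwidthSix

/-- every vertex has degree three, where a loop counts twice -/
def IsCubic {V E : Type} [DecidableEq V] [Fintype E] (s t : E → V) : Prop :=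
  ∀ v, ∑ e, ((if s e = v then 1 else 0) + (if t e = v then 1 else 0)) = 3

/-- the set of edges `M` is a perfect matching: every vertex has degree one in it -/
def IsPerfectMatching {V E : Type} [DecidableEq V] (s t : E → V) (M : Finset E) : Prop :=
  ∀ v, ∑ e ∈ M, ((if s e = v then 1 else 0) + (if t e = v then 1 else 0)) = 1

/-- Let `G` be a finite cubic graph such that no set of vertices is left by exactly one edge (no
bridges) and that the vertices can be numbered injectively by natural numbers such that for each `n`
at most six edges join a vertex with number smaller than `n` to a vertex with number at least `n`.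
Then there are two perfect matchings such that the vertices can be coloured with two colours so that
each edge outside the two perfect matchings has ends of different colours. -/
theorem result (V E : Type) [Fintype V] [DecidableEq V] [Fintype E] [DecidableEq E] (s t : E → V)
    (hc : IsCubic s t)
    (hbridge : ∀ Z : Finset V, (univ.filter fun e => ¬ (s e ∈ Z ↔ t e ∈ Z)).card ≠ 1)
    (hwidth : ∃ f : V → ℕ, Function.Injective f ∧
      ∀ n, (univ.filter fun e => ¬ (f (s e) < n ↔ f (t e) < n)).card ≤ 6) :
    ∃ M₁ M₂ : Finset E, IsPerfectMatching s t M₁ ∧ IsPerfectMatching s t M₂ ∧
      ∃ c : V → Bool, ∀ e, e ∉ M₁ ∪ M₂ → c (s e) ≠ c (t e) :=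
  Pool.Agent.Y425.BF6.Col2.s4 (Pool.Agent.Y425.BF6.Cor.six_cw s t hbridge hwidth) hc

end Pool.Agent.Results.MP_9d84f2_co.CutwidthSix
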